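import Mathlib
import Pool.Agent.Lib.MP_b2ee0b_nt.T3b
import Pool.Agent.Lib.MP_b2ee0b_nt.Br
import Pool.Agent.Lib.MP_b2ee0b_nt.Cov

namespace Pool.Agent.Results.MP_b2ee0b_nt.NoThreeTorsion

theorem result :
    ∀ a b c : ℤ, a ≠ 0 → b ≠ 0 → c ≠ 0 → a ≠ b → a ≠ c → b ≠ c →
      IsSquare (a * b + 4) → IsSquare (a * c + 4) → IsSquare (b * c + 4) →
      ∀ P : (({ a₁ := 0,
                a₂ := (4 * (a * b + a * c + b * c) : ℚ),
                a₃ := 0,
                a₄ := (16 * (a * b * (a * c) + a * b * (b * c) + a * c * (b * c)) : ℚ),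
                a₆ := (64 * (a * b) * (a * c) * (b * c) : ℚ) } :
                WeierstrassCurve ℚ).toAffine.Point),
        3 • P = 0 → P = 0 := by
  intro a b c ha hb hc hab hac hbc h1 h2 h3 P hP
  by_contra h0
  refine Pool.Agent.Lib.MP_b2ee0b_nt.assemble ?_ ha hb hc hab hac hbc h1 h2 h3
    (Pool.Agent.Lib.MP_b2ee0b_nt.T3_of_three a b c ha hb hc hab hac hbc P
      (by rwa [three'_nsmul] at hP) h0)
  intro a b c r s t α β G τ j d ρ y e g
  obtain ⟨e, q, ⟨C⟩⟩ := g.cx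
  exact Pool.Agent.Lib.MP_b2ee0b_nt.TM.cover C

end Pool.Agent.Results.MP_b2ee0b_nt.NoThreeTorsion
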